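import Mathlib
import Pool.Agent.E8helper19.QC.Stm

/-!
# QC2: the reference measure
-/

set_option autoImplicit false

namespace Pool.Agent.E8helper39.QC

open MeasureTheory Filter Topology
open Pool.Agent.E8helper19.QC (E nu Good S_NU)

/-- exponentials decay faster than powers -/
lemma exp_bd (a δ N : ℝ) (ha : 0 < a) (hδ : 0 < δ) (hN : 0 ≤ N) :
    ∃ K : ℝ, 0 < K ∧ ∀ r : ℝ, 0 ≤ r → Real.exp (-(a * r ^ δ)) ≤ K * (1 + r) ^ (-N) := by
  obtain ⟨k, hk⟩ := exists_nat_ge (N / δ)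
  have hk' : N ≤ δ * k := by rw [div_le_iff₀ hδ] at hk; linarith
  have hfac : (0 : ℝ) < k.factorial := by exact_mod_cast k.factorial_pos
  have h2N : (0 : ℝ) < 2 ^ N := Real.rpow_pos_of_pos two_pos N
  refine ⟨2 ^ N * (1 + k.factorial / a ^ k), by positivity, fun r hr => ?_⟩
  have hr1 : 0 < 1 + r := by linarith
  have hpos : 0 < (1 + r) ^ N := Real.rpow_pos_of_pos hr1 N
  have hF : 0 ≤ (k.factorial : ℝ) / a ^ k := by positivity
  rw [Real.rpow_neg hr1.le, ← div_eq_mul_inv, le_div_iff₀ hpos]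
  have hrd : 0 ≤ r ^ δ := Real.rpow_nonneg hr δ
  rcases le_total r 1 with h | h
  · have h1 : Real.exp (-(a * r ^ δ)) ≤ 1 := Real.exp_le_one_iff.2 (by nlinarith)
    have h2 : (1 + r) ^ N ≤ 2 ^ N := Real.rpow_le_rpow hr1.le (by linarith) hN
    calc Real.exp (-(a * r ^ δ)) * (1 + r) ^ N ≤ 1 * 2 ^ N :=
          mul_le_mul h1 h2 hpos.le zero_le_one
      _ ≤ 2 ^ N * (1 + k.factorial / a ^ k) := by nlinarith
  · have h1 : (a * r ^ δ) ^ k / k.factorial ≤ Real.exp (a * r ^ δ) :=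
      Real.pow_div_factorial_le_exp _ (by positivity) k
    have h3 : r ^ N ≤ (r ^ δ) ^ k := by
      rw [← Real.rpow_natCast, ← Real.rpow_mul hr]
      exact Real.rpow_le_rpow_of_exponent_le h hk'
    have h2 : (1 + r) ^ N ≤ 2 ^ N * r ^ N := by
      rw [← Real.mul_rpow two_pos.le hr]
      exact Real.rpow_le_rpow hr1.le (by linarith) hN
    have h4 : (r ^ δ) ^ k ≤ k.factorial / a ^ k * Real.exp (a * r ^ δ) := by
      rw [div_le_iff₀ hfac, mul_pow] at h1
      rw [div_mul_eq_mul_div, le_div_iff₀ (by positivity)]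
      linarith
    rw [Real.exp_neg, inv_mul_le_iff₀ (Real.exp_pos _)]
    have h5 : r ^ N ≤ k.factorial / a ^ k * Real.exp (a * r ^ δ) := h3.trans h4
    have h6 := mul_le_mul_of_nonneg_left h5 h2N.le
    have h7 : 0 ≤ 2 ^ N * Real.exp (a * r ^ δ) := by positivity
    nlinarith

/-- a power near zero -/
noncomputable def gg (γ r : ℝ) : ℝ := if r ≤ 1 then r ^ γ else 0

lemma gg_nonneg (γ : ℝ) {r : ℝ} (hr : 0 ≤ r) : 0 ≤ gg γ r := by
  unfold gg
  split_ifs
  · exact Real.rpow_nonneg hr γ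
  · exact le_rfl

lemma gg_int (n : ℕ) (hn : 1 ≤ n) (γ : ℝ) (hγ : -(n : ℝ) < γ) :
    Integrable (fun z : E n => gg γ ‖z‖) := by
  have : Nonempty (Fin n) := ⟨⟨0, hn⟩⟩
  refine (integrable_fun_norm_addHaar (volume : Measure (E n)) (f := gg γ)).2 ?_
  have hd : Module.finrank ℝ (E n) = n := by simp [E]
  rw [hd, ← Set.Ioc_union_Ioi_eq_Ioi (zero_le_one' ℝ)]
  refine IntegrableOn.union ?_ ?_
  · have h1 : IntegrableOn (fun y : ℝ => y ^ ((n : ℝ) - 1 + γ)) (Set.Ioc 0 1) := by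
      rw [← intervalIntegrable_iff_integrableOn_Ioc_of_le zero_le_one]
      exact intervalIntegral.intervalIntegrable_rpow' (by linarith)
    refine h1.congr_fun (fun y hy => ?_) measurableSet_Ioc
    have hy0 : 0 < y := hy.1
    simp only [gg, if_pos hy.2, smul_eq_mul]
    rw [Real.rpow_add hy0, ← Real.rpow_natCast, Nat.cast_sub hn, Nat.cast_one]
  · have h1 : IntegrableOn (fun _ : ℝ => (0 : ℝ)) (Set.Ioi 1) := integrableOn_zero
    refine h1.congr_fun (fun y hy => ?_) measurableSet_Ioi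
    have hy1 : ¬ y ≤ 1 := not_le.2 hy
    simp only [gg, if_neg hy1, smul_zero]

lemma gg_meas (γ : ℝ) : Measurable (gg γ) := by
  unfold gg
  exact Measurable.ite measurableSet_Iic (measurable_id.pow_const γ) measurable_const

/-- splitting a power -/
lemma pow_split (γ u w : ℝ) (hγ : γ ≤ 0) (hu : 0 < u) (hw0 : 0 ≤ w) (hw1 : w ≤ 1) :
    u ^ γ * w ≤ gg γ u + w := by
  unfold gg
  have h0 : 0 ≤ u ^ γ := Real.rpow_nonneg hu.le γ
  split_ifs with h
  · nlinarith
  · push Not at h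
    have h1 : u ^ γ ≤ 1 := Real.rpow_le_one_of_one_le_of_nonpos h.le hγ
    nlinarith

/-- the product of two negative powers -/
lemma pow_prod (s b u v : ℝ) (hs : 0 ≤ s) (hb : b ≤ 0) (hu : 0 < u) (hv : 0 < v) :
    u ^ (-s) * v ^ b ≤ u ^ (b - s) + v ^ (b - s) := by
  have hu' : 0 < u ^ (b - s) := Real.rpow_pos_of_pos hu _
  have hv' : 0 < v ^ (b - s) := Real.rpow_pos_of_pos hv _
  rcases le_total u v with h | h
  · have h1 : v ^ b ≤ u ^ b := Real.rpow_le_rpow_of_nonpos hu h hb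
    have h2 : u ^ (-s) * v ^ b ≤ u ^ (-s) * u ^ b :=
      mul_le_mul_of_nonneg_left h1 (Real.rpow_nonneg hu.le _)
    rw [← Real.rpow_add hu] at h2
    have h3 : -s + b = b - s := by ring
    rw [h3] at h2
    linarith
  · have h1 : u ^ (-s) ≤ v ^ (-s) := Real.rpow_le_rpow_of_nonpos hv h (by linarith)
    have h2 : u ^ (-s) * v ^ b ≤ v ^ (-s) * v ^ b :=
      mul_le_mul_of_nonneg_right h1 (Real.rpow_nonneg hv.le _)
    rw [← Real.rpow_add hv] at h2
    have h3 : -s + b = b - s := by ring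
    rw [h3] at h2
    linarith

lemma w_int (n : ℕ) (N : ℝ) (hN : (n : ℝ) < N) :
    Integrable (fun y : E n => (1 + ‖y‖) ^ (-N)) := by
  refine integrable_one_add_norm ?_
  have hd : Module.finrank ℝ (E n) = n := by simp [E]
  rw [hd]
  exact hN

lemma w_le_one (N r : ℝ) (hN : 0 ≤ N) (hr : 0 ≤ r) : (1 + r) ^ (-N) ≤ 1 :=
  Real.rpow_le_one_of_one_le_of_nonpos (by linarith) (by linarith)

theorem t_NU : S_NU := by
  intro n α s c δ C q hn hα hs hsn hsα hq hc hδ hqb
  have hn0 : (0 : ℝ) < n := by exact_mod_cast hn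
  have hne : Nonempty (Fin n) := ⟨⟨0, hn⟩⟩
  set β : ℝ := n * α with hβ
  have hβn : -(n : ℝ) < β := by rw [hβ]; nlinarith
  set b : ℝ := min β 0 with hb
  have hb0 : b ≤ 0 := min_le_right _ _
  have hbn : -(n : ℝ) < b := lt_min hβn (by linarith)
  have hbs : -(n : ℝ) < b - s := by
    rw [hb]
    rcases min_choice β 0 with h | h
    · rw [h, hβ]; nlinarith
    · rw [h]; linarith
  set bp : ℝ := max β 0 with hbp
  have hbp0 : 0 ≤ bp := le_max_right _ _
  have hbb : β = b + bp := by rw [hb, hbp, min_add_max, add_zero]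
  obtain ⟨K, hK, hKb⟩ := exp_bd (n * c) δ (bp + (n + 2)) (by positivity) hδ (by positivity)
  set f : E n → ℝ := fun x => ‖x‖ ^ ((n : ℝ) * α) * Real.exp (n * q x) with hf
  have hf0 : ∀ x, 0 ≤ f x := fun x => mul_nonneg (Real.rpow_nonneg (norm_nonneg _) _)
    (Real.exp_pos _).le
  have hfm : Measurable f :=
    (measurable_norm.pow_const _).mul (Real.measurable_exp.comp (hq.measurable.const_mul _))
  set A : ℝ := Real.exp (n * C) * K with hA
  have hA0 : 0 < A := by positivity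
  -- the basic bound
  have hfb : ∀ y : E n, y ≠ 0 → f y ≤ A * (‖y‖ ^ b * (1 + ‖y‖) ^ (-((n : ℝ) + 2))) := by
    intro y hy
    have hv : 0 < ‖y‖ := norm_pos_iff.2 hy
    have h1v : 0 < 1 + ‖y‖ := by linarith
    have e1 : Real.exp (n * q y) ≤ Real.exp (n * C) * (K * (1 + ‖y‖) ^ (-(bp + (n + 2)))) := by
      calc Real.exp (n * q y) ≤ Real.exp (n * C + -(n * c * ‖y‖ ^ δ)) := by
            apply Real.exp_le_exp.2
            have := mul_le_mul_of_nonneg_left (hqb y) hn0.le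
            nlinarith
        _ = Real.exp (n * C) * Real.exp (-(n * c * ‖y‖ ^ δ)) := Real.exp_add _ _
        _ ≤ _ := mul_le_mul_of_nonneg_left (hKb _ (norm_nonneg _)) (Real.exp_pos _).le
    have e2 : ‖y‖ ^ ((n : ℝ) * α) ≤ ‖y‖ ^ b * (1 + ‖y‖) ^ bp := by
      rw [← hβ, hbb, Real.rpow_add hv]
      exact mul_le_mul_of_nonneg_left (Real.rpow_le_rpow hv.le (by linarith) hbp0)
        (Real.rpow_nonneg hv.le _)
    calc f y ≤ (‖y‖ ^ b * (1 + ‖y‖) ^ bp) *
          (Real.exp (n * C) * (K * (1 + ‖y‖) ^ (-(bp + (n + 2))))) :=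
          mul_le_mul e2 e1 (Real.exp_pos _).le
            (mul_nonneg (Real.rpow_nonneg hv.le _) (Real.rpow_nonneg h1v.le _))
      _ = A * (‖y‖ ^ b * ((1 + ‖y‖) ^ bp * (1 + ‖y‖) ^ (-(bp + (n + 2))))) := by rw [hA]; ring
      _ = _ := by
          rw [← Real.rpow_add h1v]
          congr 3
          ring
  have hae : ∀ x : E n, ∀ᵐ y : E n, y ≠ x := by
    intro x
    rw [ae_iff]
    have : {a : E n | ¬ a ≠ x} = {x} := by ext a; simp
    rw [this]
    exact measure_singleton x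
  have hof : Measurable fun x : E n => ENNReal.ofReal (f x) := hfm.ennreal_ofReal
  have htr : ∀ x : E n, (ENNReal.ofReal (f x)).toReal = f x := fun x => ENNReal.toReal_ofReal (hf0 x)
  have hnu : nu α q = volume.withDensity fun x => ENNReal.ofReal (f x) := rfl
  have hint : ∀ g : E n → ℝ, Integrable g (nu α q) ↔ Integrable (fun x => f x * g x) := by
    intro g
    rw [hnu, integrable_withDensity_iff_integrable_smul' hof (Eventually.of_forall fun x =>
      ENNReal.ofReal_lt_top)]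
    simp only [htr, smul_eq_mul]
  have hintg : ∀ g : E n → ℝ, ∫ y, g y ∂(nu α q) = ∫ y, f y * g y := by
    intro g
    rw [hnu, integral_withDensity_eq_integral_toReal_smul hof (Eventually.of_forall fun x =>
      ENNReal.ofReal_lt_top)]
    simp only [htr, smul_eq_mul]
  have hgb := gg_int n hn b hbn
  have hgs := gg_int n hn (b - s) hbs
  have hw2 := w_int n ((n : ℝ) + 2) (by linarith)
  have hw1 := w_int n ((n : ℝ) + 1) (by linarith)
  have hfint : Integrable f := by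
    refine Integrable.mono' ((hgb.add hw2).const_mul A) hfm.aestronglyMeasurable ?_
    filter_upwards [hae 0] with y hy
    rw [Real.norm_of_nonneg (hf0 y)]
    refine (hfb y hy).trans (mul_le_mul_of_nonneg_left ?_ hA0.le)
    exact pow_split b _ _ hb0 (norm_pos_iff.2 hy) (Real.rpow_nonneg (by positivity) _)
      (w_le_one _ _ (by positivity) (norm_nonneg _))
  have hmom : Integrable (fun y => ‖y‖) (nu α q) := by
    rw [hint]
    refine Integrable.mono' ((hgb.add hw1).const_mul A)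
      (hfm.mul measurable_norm).aestronglyMeasurable ?_
    filter_upwards [hae 0] with y hy
    have hv : 0 < ‖y‖ := norm_pos_iff.2 hy
    have h1v : 0 < 1 + ‖y‖ := by linarith
    rw [Real.norm_of_nonneg (mul_nonneg (hf0 y) (norm_nonneg _))]
    have e1 : (1 + ‖y‖) ^ (-((n : ℝ) + 2)) * ‖y‖ ≤ (1 + ‖y‖) ^ (-((n : ℝ) + 1)) := by
      have e2 : (1 + ‖y‖) ^ (-((n : ℝ) + 1)) = (1 + ‖y‖) ^ (-((n : ℝ) + 2)) * (1 + ‖y‖) := by
        have : -((n : ℝ) + 1) = -((n : ℝ) + 2) + 1 := by ring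
        rw [this, Real.rpow_add h1v, Real.rpow_one]
      rw [e2]
      exact mul_le_mul_of_nonneg_left (by linarith) (Real.rpow_nonneg h1v.le _)
    calc f y * ‖y‖ ≤ A * (‖y‖ ^ b * (1 + ‖y‖) ^ (-((n : ℝ) + 2))) * ‖y‖ :=
          mul_le_mul_of_nonneg_right (hfb y hy) hv.le
      _ = A * (‖y‖ ^ b * ((1 + ‖y‖) ^ (-((n : ℝ) + 2)) * ‖y‖)) := by ring
      _ ≤ A * (‖y‖ ^ b * (1 + ‖y‖) ^ (-((n : ℝ) + 1))) := by
          apply mul_le_mul_of_nonneg_left _ hA0.le
          exact mul_le_mul_of_nonneg_left e1 (Real.rpow_nonneg hv.le _)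
      _ ≤ _ := by
          refine mul_le_mul_of_nonneg_left ?_ hA0.le
          exact pow_split b _ _ hb0 hv (Real.rpow_nonneg (by positivity) _)
            (w_le_one _ _ (by positivity) (norm_nonneg _))
  -- the Riesz potentials
  have hdom : ∀ x : E n, Integrable (fun y : E n => A * (gg (b - s) ‖x - y‖ + gg (b - s) ‖y‖ +
      2 * (1 + ‖y‖) ^ (-((n : ℝ) + 2)))) := by
    intro x
    have h1 : Integrable (fun y : E n => gg (b - s) ‖x - y‖) := hgs.comp_sub_left x
    exact ((h1.add hgs).add (hw2.const_mul 2)).const_mul A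
  have hptw : ∀ x : E n, ∀ᵐ y : E n, f y * ‖x - y‖ ^ (-s) ≤ A * (gg (b - s) ‖x - y‖ +
      gg (b - s) ‖y‖ + 2 * (1 + ‖y‖) ^ (-((n : ℝ) + 2))) := by
    intro x
    filter_upwards [hae 0, hae x] with y hy hyx
    have hv : 0 < ‖y‖ := norm_pos_iff.2 hy
    have hu : 0 < ‖x - y‖ := norm_pos_iff.2 (sub_ne_zero.2 (Ne.symm hyx))
    have hw0 : 0 ≤ (1 + ‖y‖) ^ (-((n : ℝ) + 2)) := Real.rpow_nonneg (by positivity) _
    have hw1' : (1 + ‖y‖) ^ (-((n : ℝ) + 2)) ≤ 1 := w_le_one _ _ (by positivity) (norm_nonneg _)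
    calc f y * ‖x - y‖ ^ (-s) ≤ A * (‖y‖ ^ b * (1 + ‖y‖) ^ (-((n : ℝ) + 2))) * ‖x - y‖ ^ (-s) :=
          mul_le_mul_of_nonneg_right (hfb y hy) (Real.rpow_nonneg hu.le _)
      _ = A * ((‖x - y‖ ^ (-s) * ‖y‖ ^ b) * (1 + ‖y‖) ^ (-((n : ℝ) + 2))) := by ring
      _ ≤ A * ((‖x - y‖ ^ (b - s) + ‖y‖ ^ (b - s)) * (1 + ‖y‖) ^ (-((n : ℝ) + 2))) := by
          apply mul_le_mul_of_nonneg_left _ hA0.le
          exact mul_le_mul_of_nonneg_right (pow_prod s b _ _ hs.le hb0 hu hv) hw0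
      _ ≤ _ := by
          apply mul_le_mul_of_nonneg_left _ hA0.le
          have i1 := pow_split (b - s) ‖x - y‖ _ (by linarith) hu hw0 hw1'
          have i2 := pow_split (b - s) ‖y‖ _ (by linarith) hv hw0 hw1'
          nlinarith
  have hrint : ∀ x : E n, Integrable (fun y => f y * ‖x - y‖ ^ (-s)) := by
    intro x
    refine Integrable.mono' (hdom x) ?_ ?_
    · refine (hfm.mul ?_).aestronglyMeasurable
      exact (measurable_const.sub measurable_id).norm.pow_const _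
    · filter_upwards [hptw x] with y hy
      rw [Real.norm_of_nonneg (mul_nonneg (hf0 y) (Real.rpow_nonneg (norm_nonneg _) _))]
      exact hy
  refine ⟨A * ((∫ z : E n, gg (b - s) ‖z‖) + (∫ z : E n, gg (b - s) ‖z‖) +
    2 * ∫ y : E n, (1 + ‖y‖) ^ (-((n : ℝ) + 2))), ?_, ?_, ?_, hmom, ?_, ?_⟩
  · rw [hnu]
    exact isFiniteMeasure_withDensity_ofReal hfint.2
  · rw [hnu, Ne, withDensity_eq_zero_iff hof.aemeasurable]
    intro h
    have h2 : ∀ᵐ y : E n, False := by
      filter_upwards [h, hae 0] with y h1 h3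
      have h4 : 0 < f y := mul_pos (Real.rpow_pos_of_pos (norm_pos_iff.2 h3) _) (Real.exp_pos _)
      simp only [Pi.zero_apply, ENNReal.ofReal_eq_zero] at h1
      linarith
    rw [eventually_false_iff_eq_bot, ae_eq_bot] at h2
    exact (NeZero.ne (volume : Measure (E n))) h2
  · intro x
    have h1 : nu α q ≪ volume := withDensity_absolutelyContinuous _ _
    exact h1 (measure_singleton x)
  · intro x
    rw [hint]
    exact hrint x
  · intro x
    rw [hintg]
    refine (integral_mono_ae (hrint x) (hdom x) (hptw x)).trans (le_of_eq ?_)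
    have h1 : Integrable (fun y : E n => gg (b - s) ‖x - y‖) := hgs.comp_sub_left x
    have h12 : Integrable (fun y : E n => gg (b - s) ‖x - y‖ + gg (b - s) ‖y‖) := h1.add hgs
    rw [integral_const_mul, integral_add h12 (hw2.const_mul 2), integral_add h1 hgs,
      integral_const_mul]
    have h2 : ∫ y : E n, gg (b - s) ‖x - y‖ = ∫ z : E n, gg (b - s) ‖z‖ :=
      integral_sub_left_eq_self (fun z : E n => gg (b - s) ‖z‖) volume x
    rw [h2]

end Pool.Agent.E8helper39.QC
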